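import Pool.Agent.H38.ER.Strong3

open Pool.Agent.H38.NP Pool.Agent.H38.ER

theorem Pool.Agent.Results.MP_e14cd3_lc.Hard.result :
    ERHardOn (fun _ : ℕ × List (ℕ × ℕ) => True) fun p =>
      ∃ φ : Fin p.1 → EuclideanSpace ℝ (Fin 3), (∀ v, φ v ≠ 0) ∧
        (∀ u v, u ≠ v → ∀ c : ℝ, φ u ≠ c • φ v) ∧
        ∀ u v, (graphOf p.1 p.2).Adj u v → inner ℝ (φ u) (φ v) = 0 := by
  refine (s3_erh.mono (C' := fun _ => True) fun p _ =>
    ⟨trivial, fun ⟨q, h1, h2, h3⟩ => ?_, fun ⟨φ, h1, h2, h3⟩ => ?_⟩).hardOn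
  · refine ⟨fun v => WithLp.toLp 2 ![(q v).1, (q v).2.1, (q v).2.2], fun v e => ?_,
      fun u v h c e => ?_, fun u v h => ?_⟩
    · have k := fun i => congrArg (fun y : EuclideanSpace ℝ (Fin 3) => y i) e
      exact h1 v v.2 (Prod.ext (by simpa using k 0) (Prod.ext (by simpa using k 1) (by simpa using k 2)))
    · have k := fun i => congrArg (fun y : EuclideanSpace ℝ (Fin 3) => y i) e
      have : q u = c • q v :=
        Prod.ext (by simpa using k 0) (Prod.ext (by simpa using k 1) (by simpa using k 2))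
      exact np_smul c (q v) (this ▸ h2 u u.2 v v.2 fun e => h (Fin.ext e))
    · have := h3 u v h
      simp only [ip] at this
      simp [PiLp.inner_apply, Fin.sum_univ_three]; linarith
  · have hz : ∀ v, ((φ v 0, φ v 1, φ v 2) : V3) ≠ 0 := fun v e => h1 v (by
      simp only [Prod.mk_eq_zero] at e
      ext i; fin_cases i <;> simp [e])
    refine ⟨fun i => if h : i < p.1 then (φ ⟨i, h⟩ 0, φ ⟨i, h⟩ 1, φ ⟨i, h⟩ 2) else 0, fun i hi => ?_,
      fun i hi j hj hij => ?_, fun u v h => ?_⟩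
    · simp only [dif_pos hi]; exact hz _
    · simp only [dif_pos hi, dif_pos hj]
      by_contra hc
      have h0 := (ip_pos (hz ⟨j, hj⟩)).ne'
      refine h2 ⟨i, hi⟩ ⟨j, hj⟩ (by simpa using hij)
        (ip (φ ⟨i, hi⟩ 0, φ ⟨i, hi⟩ 1, φ ⟨i, hi⟩ 2) (φ ⟨j, hj⟩ 0, φ ⟨j, hj⟩ 1, φ ⟨j, hj⟩ 2) /
          ip (φ ⟨j, hj⟩ 0, φ ⟨j, hj⟩ 1, φ ⟨j, hj⟩ 2) (φ ⟨j, hj⟩ 0, φ ⟨j, hj⟩ 1, φ ⟨j, hj⟩ 2)) ?_
      simp only [NP, not_or, not_not] at hc
      ext k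
      rw [PiLp.smul_apply, smul_eq_mul, div_mul_eq_mul_div, eq_div_iff h0]
      simp only [ip]
      obtain ⟨k1, k2, k3⟩ := hc
      fin_cases k <;> simp only [Fin.zero_eta, Fin.mk_one, Fin.reduceFinMk]
      · linear_combination φ ⟨j, hj⟩ 1 * k1 + φ ⟨j, hj⟩ 2 * k2
      · linear_combination -φ ⟨j, hj⟩ 0 * k1 + φ ⟨j, hj⟩ 2 * k3
      · linear_combination -φ ⟨j, hj⟩ 0 * k2 - φ ⟨j, hj⟩ 1 * k3
    · simp only [dif_pos u.2, dif_pos v.2]
      have := h3 u v h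
      simp [PiLp.inner_apply, Fin.sum_univ_three] at this
      simp only [ip]; linarith
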